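import Pool.Agent.N343.AS.Stm

set_option autoImplicit false

/-! # Project AS (helper343), leaf LOW (helper169) -/

namespace Pool.Agent.N169.AS

open Pool.Agent.N343.AS Finset

theorem main : S_LOW := by
  intro n
  induction n with
  | zero =>
    intro lam h
    refine ⟨∅, ?_⟩
    have : lam = 0 := by simpa using h
    simp [this]
  | succ n ih =>
    intro lam h
    have hmap : ∀ S : Finset (Fin n), ∑ m ∈ S.map Fin.castSuccEmb, (2 : ℝ) ^ (m : ℕ) =
        ∑ m ∈ S, (2 : ℝ) ^ (m : ℕ) := by
      intro S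
      rw [Finset.sum_map]
      rfl
    by_cases h1 : lam < 2 ^ n
    · obtain ⟨S, hS⟩ := ih lam h1
      exact ⟨S.map Fin.castSuccEmb, by rw [hmap, hS]⟩
    · have h2 : lam - 2 ^ n < 2 ^ n := by rw [pow_succ] at h; omega
      obtain ⟨S, hS⟩ := ih (lam - 2 ^ n) h2
      have hnot : Fin.last n ∉ S.map Fin.castSuccEmb := by
        intro hm
        rw [Finset.mem_map] at hm
        obtain ⟨a, -, ha⟩ := hm
        exact absurd ha (Fin.castSucc_lt_last a).ne
      refine ⟨insert (Fin.last n) (S.map Fin.castSuccEmb), ?_⟩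
      rw [Finset.sum_insert hnot, hmap, hS, Fin.val_last, Nat.cast_sub (not_lt.1 h1)]
      push_cast
      ring

end Pool.Agent.N169.AS
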